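import Pool.Agent.Helper88.HG2.BTRb

/-!
# Project HG2, block BTR: the hypothesis BTR for the counting problem of `f` and a root `a` in `k`
-/

set_option autoImplicit false

namespace Pool.Agent.HG

open Polynomial NumberField IsDedekindDomain Pool.Agent.Helper88.HG
open scoped Pointwise IntermediateField

/-- **Block BTR** -/
theorem btr : StmtBTR := by
  intro hB hSel k L _ _ _ _ _ _ f X a ha hm hfin g
  classical
  -- the small elements
  obtain ⟨K, hK, hx⟩ := exists_xI k
  choose x I hx0 hxI hI hxs using hx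
  have hI0 : ∀ e, I e ≠ ⊥ := by
    intro e h
    have h1 := hxI e
    rw [h, ← Ideal.zero_eq_bot, mul_zero, Ideal.zero_eq_bot, Ideal.span_singleton_eq_bot] at h1
    exact hx0 e h1
  obtain ⟨N, hN⟩ := exists_nat_ge K
  have hIN : ∀ e, Ideal.absNorm (I e) ≤ N := fun e => by exact_mod_cast (hI e).trans hN
  set n := Module.finrank ℚ k with hn
  -- the excluded primes
  obtain ⟨M₁, hM₁⟩ : ∃ M₁, M₁ = X.M * (discr k).natAbs * N.factorial := ⟨_, rfl⟩
  have hM₁0 : M₁ ≠ 0 := by
    rw [hM₁]
    exact mul_ne_zero (mul_ne_zero X.hM (Int.natAbs_ne_zero.2 (discr_ne_zero k)))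
      (Nat.factorial_ne_zero _)
  have hdvd1 : ∀ p : ℕ, ¬ p ∣ M₁ → ¬ p ∣ X.M ∧ ¬ p ∣ (discr k).natAbs ∧ ¬ p ∣ N.factorial := by
    intro p hp
    rw [hM₁] at hp
    exact ⟨fun h => hp ((h.mul_right _).mul_right _), fun h => hp ((h.mul_left _).mul_right _),
      fun h => hp (h.mul_left _)⟩
  have hvI : ∀ (p : ℕ) (v : Pr k), p.Prime → ¬ p ∣ M₁ → (p : 𝓞 k) ∈ v.asIdeal →
      ∀ e, ¬ v.asIdeal ∣ I e := by
    intro p v hp hpM hpv e
    apply not_dvd_of_lt (hI0 e)
    have h1 : N < p := by
      by_contra h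
      exact (hdvd1 p hpM).2.2 ((Nat.Prime.dvd_factorial hp).2 (not_lt.1 h))
    have h2 := Nat.le_of_dvd (zero_lt_one.trans (one_lt_nm v)) (absNorm_mem_dvd hp hpv)
    exact (hIN e).trans_lt (h1.trans_le h2)
  -- the classes
  obtain ⟨F, hF, hsel⟩ := hSel k k ⊤ M₁ hM₁0
  obtain ⟨M₂, hM₂, hunit⟩ := exists_M_unit (L := k) F fun z hz => (hF z hz).2
  have hM₃ : M₁ * M₂ ≠ 0 := mul_ne_zero hM₁0 hM₂
  have hfin₃ := finite_bad k hM₃
  obtain ⟨C, A, h₀, hC, hBT⟩ := hB k K hK
  have hfinI : {J : Ideal (𝓞 k) | Ideal.absNorm J ≤ N}.Finite := Ideal.finite_setOfPred_absNorm_le N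
  set R := hfinI.toFinset with hR
  set c₀ := hfin₃.toFinset.card with hc₀
  have hκd : ∀ e : Finset (Pr k), ∃ κ d : k, (∀ q ∈ e, Gd X.M q) → κ ∈ F ∧
      (∏ q ∈ e, X.bt a q) * (x e : k) = κ * d ^ 2 := by
    intro e
    by_cases he : ∀ q ∈ e, Gd X.M q
    · have hz0 : (∏ q ∈ e, X.bt a q) * (x e : k) ≠ 0 := by
        refine mul_ne_zero (Finset.prod_ne_zero_iff.2 fun q hq => X.bt_ne ha (he q hq)) ?_
        exact_mod_cast hx0 e
      obtain ⟨κ, hκ, d, -, h⟩ := hsel _ (IntermediateField.mem_top) hz0 (by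
        intro p v hp hpM hpv
        obtain ⟨h1, h2, -⟩ := hdvd1 p hpM
        exact X.ev_z ha (hxI e) he hp h1 h2 hpv (hvI p v hp hpM hpv e))
      exact ⟨κ, d, fun _ => ⟨hκ, h⟩⟩
    · exact ⟨0, 0, fun h => absurd h he⟩
  choose κ d hκd using hκd
  refine ⟨F.card * R.card * (C * 2 ^ c₀) + 2 ^ (n * h₀) * (h₀ + 1), A + 1, by positivity, ?_⟩
  intro (m : Finset (Pr k)) hmEx (τ : Pr k → L × ℤˣ) hτ (t : Pr k → L → ℤˣ) Y h hY hlog hNm
    (o : Pr k → L × ℤˣ) (E : Finset (Finset (Pr k))) hE
  have hY' : (2 : ℝ) ≤ Y := by exact_mod_cast hY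
  have hlY : 0 < Real.log Y := Real.log_pos (by linarith)
  have hh2 : 2 ≤ h := by
    by_contra hlt
    have h1 : Real.log h = 0 := by
      have h2 : h = 0 ∨ h = 1 := by omega
      rcases h2 with rfl | rfl
      · simp
      · simp
    rw [h1, Real.zero_rpow (by norm_num)] at hlog
    exact absurd hlog (not_le.2 hlY)
  have hh' : (2 : ℝ) ≤ h := by exact_mod_cast hh2
  have hh0 : (0 : ℝ) < h := by linarith
  have hmGd : ∀ p ∈ m, Gd X.M p := by
    intro p hp
    by_contra h1
    exact hmEx p hp (hfin.mem_toFinset.2 h1)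
  have hNm' : (∏ p ∈ m, nm p) ^ (A + 1) ≤ h := hNm
  have hm1 : 1 ≤ ∏ p ∈ m, nm p := Finset.one_le_prod' fun p _ => (nm_two p).trans' one_le_two
  -- the conditions
  let II : Pr k → Finset L := fun p =>
    (X.cd hm hfin g).I p (τ p) (X.cmp hm (algebraMap k L a))
  have hII : ∀ p, ∀ ρ ∈ II p, ρ = algebraMap k L a := by
    intro p ρ hρ
    have h1 := Finset.mem_filter.1 (Finset.mem_of_mem_erase hρ)
    exact X.cmp_alpha ha hm (X.R_sub p h1.1) h1.2
  set w : ℝ := ∏ p ∈ m, (1 / 2 : ℝ) ^ (II p).card with hw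
  let MM0 : Finset (Pr k) := m.filter fun p => algebraMap k L a ∈ II p
  have hw1 : (1 / 2 : ℝ) ^ MM0.card ≤ w := by
    rw [← Finset.prod_const, Finset.prod_filter, hw]
    refine Finset.prod_le_prod (fun p _ => by split_ifs <;> norm_num) fun p _ => ?_
    split_ifs with h1
    · have h2 : II p = {algebraMap k L a} := by
        ext ρ
        rw [Finset.mem_singleton]
        exact ⟨hII p ρ, fun h3 => h3 ▸ h1⟩
      rw [h2]
      simp
    · have h2 : II p = ∅ := by
        rw [Finset.eq_empty_iff_forall_notMem]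
        intro ρ hρ
        have h3 := hII p ρ hρ
        exact h1 (h3 ▸ hρ)
      rw [h2]
      simp
  have hEG : ∀ e ∈ E, ∀ q ∈ e, Gd X.M q ∧ q ∉ m ∧ Y < nm q ∧ (o q).1 = algebraMap k L a := by
    intro e he q hq
    obtain ⟨h1, h2, h3, h4, h5⟩ := (hE e he).2.1 q hq
    refine ⟨?_, h2, h3, ?_⟩
    · by_contra h6
      exact h1 (hfin.mem_toFinset.2 h6)
    · have h6 : (o q).1 ∈ X.Fx q := (Finset.mem_product.1 h4).1
      exact X.cmp_alpha ha hm (Finset.mem_filter.1 h6).1 h5
  have hEh : ∀ e ∈ E, ∏ q ∈ e, nm q ≤ h := fun e he => (hE e he).1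
  have hG0 : 0 < (h : ℝ) / Real.log Y := div_pos hh0 hlY
  have hfinal : (E.card : ℝ) ≤ (F.card * R.card * (C * 2 ^ c₀) + 2 ^ (n * h₀) * (h₀ + 1)) *
      (w * (h / Real.log Y)) := by
    have hw0 : 0 < w := lt_of_lt_of_le (by positivity) hw1
    rw [add_mul]
    by_cases hhh : h < h₀
    · -- small `h`
      let U : Finset (Pr k) := E.biUnion id
      have hU : U.card ≤ n * h₀ := by
        refine card_all U h₀ fun q hq => ?_
        obtain ⟨e, he, hqe⟩ := Finset.mem_biUnion.1 hq
        have h1 : nm q ≤ ∏ q ∈ e, nm q :=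
          Nat.le_of_dvd (Finset.prod_pos fun q _ => zero_lt_one.trans (one_lt_nm q))
            (Finset.dvd_prod_of_mem _ hqe)
        exact h1.trans ((hEh e he).trans hhh.le)
      have h1 : E.card ≤ 2 ^ (n * h₀) := by
        have h2 : E ⊆ U.powerset := by
          intro e he
          rw [Finset.mem_powerset]
          exact Finset.subset_biUnion_of_mem id he
        refine (Finset.card_le_card h2).trans ?_
        rw [Finset.card_powerset]
        exact Nat.pow_le_pow_right two_pos hU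
      have h2 : (h : ℝ)⁻¹ ≤ w := by
        refine le_trans ?_ hw1
        have h3 : 2 ^ MM0.card ≤ h := by
          calc 2 ^ MM0.card ≤ 2 ^ m.card :=
                Nat.pow_le_pow_right two_pos (Finset.card_le_card (Finset.filter_subset _ _))
            _ = ∏ p ∈ m, 2 := by rw [Finset.prod_const]
            _ ≤ ∏ p ∈ m, nm p := Finset.prod_le_prod' fun p _ => nm_two p
            _ ≤ (∏ p ∈ m, nm p) ^ (A + 1) := Nat.le_self_pow (Nat.succ_ne_zero _) _
            _ ≤ h := hNm'
        have h4 : (2 : ℝ) ^ MM0.card ≤ h := by exact_mod_cast h3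
        rw [one_div, inv_pow]
        exact inv_anti₀ (by positivity) h4
      have h3 : Real.log Y ≤ (h₀ : ℝ) + 1 := by
        have h4 : 0 ≤ Real.log h := Real.log_nonneg (by linarith)
        have h5 : Real.log h ≤ h := (Real.log_le_sub_one_of_pos hh0).trans (by linarith)
        have h6 : Real.log h ^ (1 / 2 : ℝ) ≤ Real.log h + 1 := by
          rw [← Real.sqrt_eq_rpow, Real.sqrt_le_left (by linarith)]
          nlinarith
        have h7 : (h : ℝ) ≤ h₀ := by exact_mod_cast hhh.le
        linarith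
      have h4 : (1 : ℝ) ≤ (h₀ + 1) * (w * (h / Real.log Y)) := by
        calc (1 : ℝ) ≤ (h₀ + 1) / Real.log Y := (one_le_div hlY).2 h3
          _ = (h₀ + 1) * ((h : ℝ)⁻¹ * (h / Real.log Y)) := by
              field_simp
          _ ≤ (h₀ + 1) * (w * (h / Real.log Y)) :=
              mul_le_mul_of_nonneg_left (mul_le_mul_of_nonneg_right h2 hG0.le) (by positivity)
      have h5 : (E.card : ℝ) ≤ 2 ^ (n * h₀) := by exact_mod_cast h1
      have h6 : (2 : ℝ) ^ (n * h₀) ≤ 2 ^ (n * h₀) * (h₀ + 1) * (w * (h / Real.log Y)) := by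
        rw [mul_assoc]
        exact le_mul_of_one_le_right (by positivity) h4
      have h7 : 0 ≤ (F.card : ℝ) * R.card * (C * 2 ^ c₀) * (w * (h / Real.log Y)) := by positivity
      linarith
    · -- large `h`
      rw [not_lt] at hhh
      let MM : Finset (Pr k) := MM0.filter fun v => Gd (M₁ * M₂) v
      have hMMm : ∀ q ∈ MM, q ∈ m ∧ algebraMap k L a ∈ II q ∧ Gd (M₁ * M₂) q := by
        intro q hq
        obtain ⟨h1, h2⟩ := Finset.mem_filter.1 hq
        obtain ⟨h3, h4⟩ := Finset.mem_filter.1 h1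
        exact ⟨h3, h4, h2⟩
      have hMM1 : MM ⊆ m := fun q hq => (hMMm q hq).1
      have hcard : MM0.card ≤ MM.card + c₀ := by
        rw [← Finset.card_filter_add_card_filter_not (s := MM0) (fun v => Gd (M₁ * M₂) v)]
        refine Nat.add_le_add_left (Finset.card_le_card ?_) _
        intro v hv
        exact hfin₃.mem_toFinset.2 (Finset.mem_filter.1 hv).2
      have hwt : (1 / 2 : ℝ) ^ MM.card ≤ 2 ^ c₀ * w := by
        calc (1 / 2 : ℝ) ^ MM.card = 2 ^ c₀ * (1 / 2) ^ (MM.card + c₀) := by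
              rw [pow_add, mul_comm ((1 / 2 : ℝ) ^ MM.card), ← mul_assoc, ← mul_pow]
              norm_num
          _ ≤ 2 ^ c₀ * (1 / 2) ^ MM0.card := by
              refine mul_le_mul_of_nonneg_left ?_ (by positivity)
              exact pow_le_pow_of_le_one (by norm_num) (by norm_num) hcard
          _ ≤ 2 ^ c₀ * w := mul_le_mul_of_nonneg_left hw1 (by positivity)
      have hodd : ∀ q ∈ MM, Odd (nm q) := fun q hq => X.odd_nm (hmGd q (hMM1 hq))
      have hprod : (∏ q ∈ MM, nm q) ^ A ≤ h := by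
        have h1 : ∏ q ∈ MM, nm q ≤ ∏ q ∈ m, nm q :=
          Finset.prod_le_prod_of_subset_of_one_le' hMM1 fun q _ _ => (nm_two q).trans' one_le_two
        refine (Nat.pow_le_pow_left h1 A).trans ((Nat.pow_le_pow_right hm1 (Nat.le_succ A)).trans hNm')
      -- one class
      have hone : ∀ (κ₀ : k) (J : Ideal (𝓞 k)), κ₀ ∈ F →
          ((E.filter fun e => (κ e, I e) = (κ₀, J)).card : ℝ) ≤
            C * (1 / 2) ^ MM.card * (h / Real.log Y) := by
        intro κ₀ J hκF
        set E' := E.filter fun e => (κ e, I e) = (κ₀, J) with hE'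
        have hE'm : ∀ e ∈ E', e ∈ E ∧ κ e = κ₀ ∧ I e = J := by
          intro e he
          obtain ⟨h1, h2⟩ := Finset.mem_filter.1 he
          exact ⟨h1, (Prod.ext_iff.1 h2).1, (Prod.ext_iff.1 h2).2⟩
        have hinj : Set.InjOn x E' := by
          intro e he e' he' hxx
          obtain ⟨-, -, h1⟩ := hE'm e he
          obtain ⟨-, -, h2⟩ := hE'm e' he'
          have h3 := hxI e
          rw [hxx, hxI e', h2, h1] at h3
          have hJ : J ≠ 0 := by
            rw [← h1]
            exact hI0 e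
          exact (Jp_inj (mul_right_cancel₀ hJ h3)).symm
        have hT := hBT h Y hhh hY hlog MM hodd hprod
          (fun q => eul (X.P q) (nm q) (algebraMap k L κ₀) * t q (algebraMap k L a) = 1)
          (E'.image x) (by
          intro y hy
          obtain ⟨e, he, rfl⟩ := Finset.mem_image.1 hy
          obtain ⟨heE, hκe, -⟩ := hE'm e he
          have heG : ∀ q ∈ e, Gd X.M q := fun q hq => (hEG e heE q hq).1
          refine ⟨fun φ => (hxs e φ).trans ?_, hx0 e, ?_, ?_⟩
          · refine mul_le_mul_of_nonneg_left ?_ (zero_le_one.trans hK)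
            exact Real.rpow_le_rpow (Nat.cast_nonneg _) (by exact_mod_cast hEh e heE) (by positivity)
          · intro q hKq hqY hxq
            have h1 : ¬ q.asIdeal ∣ I e := by
              apply not_dvd_of_lt (hI0 e)
              exact_mod_cast (hI e).trans_lt hKq
            have h2 := (mem_iff_of_not_dvd (hxI e) h1).1 hxq
            exact absurd hqY (not_le.2 (hEG e heE q h2).2.2.1)
          · intro q hq
            obtain ⟨hqm, hqI, p, hp, hpM, hpq⟩ := hMMm q hq
            have hp1 : ¬ p ∣ M₁ := fun h' => hpM (h'.mul_right _)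
            have hp2 : ¬ p ∣ M₂ := fun h' => hpM (h'.mul_left _)
            have hqe : q ∉ e := fun h' => (hEG e heE q h').2.1 hqm
            have h1 := hvI p q hp hp1 hpq e
            have hxq : x e ∉ q.asIdeal := by
              rw [mem_iff_of_not_dvd (hxI e) h1]
              exact hqe
            refine ⟨hxq, ?_⟩
            have h2 := X.eul_x ha (hxI e) heG (hmGd q hqm) hqe h1
              (hunit p q hp hp2 hpq κ₀ hκF) (by rw [← hκe]; exact (hκd e heG).2)
            have h3 : ∏ q' ∈ e, eul (X.P q) (nm q) (algebraMap k L (X.bt a q')) =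
                t q (algebraMap k L a) := by
              rw [← (hE e heE).2.2 q hqm (algebraMap k L a) hqI]
              refine Finset.prod_congr rfl fun q' hq' => ?_
              change _ = X.ch q (X.len q (algebraMap k L a))
                (aeval (algebraMap k L a) (X.B q' (o q').1))
              rw [(hEG e heE q' hq').2.2.2, X.len_alpha, X.aeval_bt, X.ch_eq, pow_one]
            rw [X.isSquare_iff_eul (hmGd q hqm) (x e) hxq, h2, h3])
        rwa [Finset.card_image_of_injOn hinj] at hT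
      have hsum : (E.card : ℝ) ≤ ((F ×ˢ R).card : ℝ) * (C * (1 / 2) ^ MM.card * (h / Real.log Y)) := by
        have h1 : ∀ e ∈ E, (κ e, I e) ∈ F ×ˢ R := by
          intro e he
          refine Finset.mem_product.2 ⟨(hκd e fun q hq => (hEG e he q hq).1).1, ?_⟩
          exact hfinI.mem_toFinset.2 (hIN e)
        rw [Finset.card_eq_sum_card_fiberwise h1, Nat.cast_sum, ← nsmul_eq_mul]
        refine Finset.sum_le_card_nsmul _ _ _ fun b hb => ?_
        obtain ⟨κ₀, J⟩ := b
        exact hone κ₀ J (Finset.mem_product.1 hb).1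
      have h1 : C * (1 / 2) ^ MM.card * (h / Real.log Y) ≤ C * 2 ^ c₀ * (w * (h / Real.log Y)) := by
        have h2 := mul_le_mul_of_nonneg_right (mul_le_mul_of_nonneg_left hwt hC.le) hG0.le
        refine h2.trans (le_of_eq (by ring))
      have h2 : (E.card : ℝ) ≤ F.card * R.card * (C * 2 ^ c₀) * (w * (h / Real.log Y)) := by
        rw [Finset.card_product, Nat.cast_mul] at hsum
        refine hsum.trans ?_
        rw [mul_assoc ((F.card : ℝ) * R.card)]
        exact mul_le_mul_of_nonneg_left h1 (by positivity)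
      have h3 : 0 ≤ (2 : ℝ) ^ (n * h₀) * (h₀ + 1) * (w * (h / Real.log Y)) := by positivity
      linarith
  rw [← mul_assoc] at hfinal
  exact hfinal

end Pool.Agent.HG
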