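import Pool.Agent.Helper88.HG.G4
import Pool.Agent.Helper97.HG.G2
import Pool.Agent.Helper13.HG2.Defs

/-!
# Project HG2, block BTR, part 1: products of primes and small elements
-/

set_option autoImplicit false

namespace Pool.Agent.HG

open Polynomial NumberField IsDedekindDomain Pool.Agent.Helper88.HG
open scoped Pointwise IntermediateField

section ideals

variable {k : Type} [Field k] [NumberField k]

/-- the product of the primes in `e` -/
noncomputable def Jp (e : Finset (Pr k)) : Ideal (𝓞 k) := ∏ q ∈ e, q.asIdeal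

theorem pr_eq_of_dvd {v q : Pr k} (h : v.asIdeal ∣ q.asIdeal) : v = q := by
  apply HeightOneSpectrum.ext
  exact (q.isMaximal.eq_of_le v.isPrime.ne_top (Ideal.dvd_iff_le.1 h)).symm

theorem Jp_dvd (e : Finset (Pr k)) (v : Pr k) : v.asIdeal ∣ Jp e ↔ v ∈ e := by
  constructor
  · intro h
    obtain ⟨q, hq, h1⟩ := (Prime.dvd_finsetProd_iff v.prime _).1 h
    rwa [pr_eq_of_dvd h1]
  · intro h
    exact Finset.dvd_prod_of_mem _ h

theorem Jp_inj {e e' : Finset (Pr k)} (h : Jp e = Jp e') : e = e' := by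
  ext v
  rw [← Jp_dvd, ← Jp_dvd, h]

theorem absNorm_Jp (e : Finset (Pr k)) : Ideal.absNorm (Jp e) = ∏ q ∈ e, nm q := by
  unfold Jp nm
  rw [map_prod]

theorem Jp_ne (e : Finset (Pr k)) : Jp e ≠ ⊥ := by
  unfold Jp
  rw [← Ideal.zero_eq_bot, Finset.prod_ne_zero_iff]
  intro q _
  exact q.ne_bot

theorem exists_xI (k : Type) [Field k] [NumberField k] : ∃ K : ℝ, 1 ≤ K ∧ ∀ e : Finset (Pr k),
    ∃ (x : 𝓞 k) (I : Ideal (𝓞 k)), x ≠ 0 ∧ Ideal.span {x} = Jp e * I ∧
      (Ideal.absNorm I : ℝ) ≤ K ∧ ∀ φ : k →+* ℂ,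
        ‖φ (x : k)‖ ≤ K * ((∏ q ∈ e, nm q : ℕ) : ℝ) ^ ((1 : ℝ) / Module.finrank ℚ k) := by
  obtain ⟨K, hK, h⟩ := exists_small k
  have hn : 0 < Module.finrank ℚ k := Module.finrank_pos
  refine ⟨K ^ Module.finrank ℚ k, one_le_pow₀ hK, fun e => ?_⟩
  obtain ⟨x, hxJ, hx0, hx⟩ := h (Jp e) (Jp_ne e)
  obtain ⟨I, hI⟩ := Ideal.dvd_span_singleton.2 hxJ
  rw [absNorm_Jp] at hx
  have hN : 0 < ∏ q ∈ e, nm q := Finset.prod_pos fun q _ => by
    have := one_lt_nm q
    omega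
  have hN' : (0 : ℝ) < ((∏ q ∈ e, nm q : ℕ) : ℝ) := by exact_mod_cast hN
  refine ⟨x, I, hx0, hI, ?_, ?_⟩
  · have h1 := norm_bound x hx
    rw [hI, map_mul, absNorm_Jp, Nat.cast_mul, mul_pow, ← Real.rpow_natCast (((∏ q ∈ e, nm q : ℕ) : ℝ) ^ _),
      ← Real.rpow_mul hN'.le, one_div, inv_mul_cancel₀ (by exact_mod_cast hn.ne'), Real.rpow_one,
      mul_comm] at h1
    exact le_of_mul_le_mul_right h1 hN'
  · intro φ
    refine (hx φ).trans (mul_le_mul_of_nonneg_right (le_self_pow₀ hK hn.ne') (Real.rpow_nonneg hN'.le _))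

/-- a prime which does not divide the cofactor -/
theorem mem_iff_of_not_dvd {e : Finset (Pr k)} {x : 𝓞 k} {I : Ideal (𝓞 k)}
    (h : Ideal.span {x} = Jp e * I) {v : Pr k} (hv : ¬ v.asIdeal ∣ I) : x ∈ v.asIdeal ↔ v ∈ e := by
  rw [← Ideal.dvd_span_singleton, h, v.prime.dvd_mul, Jp_dvd]
  tauto

theorem not_sq_of_not_dvd {e : Finset (Pr k)} {x : 𝓞 k} {I : Ideal (𝓞 k)}
    (h : Ideal.span {x} = Jp e * I) {v : Pr k} (hv : ¬ v.asIdeal ∣ I) : x ∉ v.asIdeal ^ 2 := by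
  classical
  intro hx
  have h1 : v ∈ e := (mem_iff_of_not_dvd h hv).1 (Ideal.pow_le_self two_ne_zero hx)
  have h2 : v.asIdeal ^ 2 ∣ Ideal.span {x} := Ideal.dvd_span_singleton.2 hx
  have h3 : Jp e = v.asIdeal * Jp (e.erase v) := (Finset.mul_prod_erase e _ h1).symm
  rw [h, h3, sq, mul_assoc] at h2
  have h4 : v.asIdeal ∣ Jp (e.erase v) * I :=
    (mul_dvd_mul_iff_left (by rw [Ideal.zero_eq_bot]; exact v.ne_bot)).1 h2
  rcases v.prime.dvd_or_dvd h4 with h5 | h5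
  · exact absurd ((Jp_dvd _ _).1 h5) (Finset.notMem_erase v e)
  · exact hv h5

/-- large primes do not divide the cofactor -/
theorem not_dvd_of_lt {I : Ideal (𝓞 k)} (hI : I ≠ ⊥) {v : Pr k} (h : Ideal.absNorm I < nm v) :
    ¬ v.asIdeal ∣ I := by
  intro hv
  have h1 := Ideal.absNorm_dvd_absNorm_of_le (Ideal.dvd_iff_le.1 hv)
  have h2 : Ideal.absNorm I ≠ 0 := by
    rw [Ne, Ideal.absNorm_eq_zero_iff]
    exact hI
  exact absurd (Nat.le_of_dvd (Nat.pos_of_ne_zero h2) h1) (not_le.2 h)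

end ideals

namespace Ctx

variable {k L : Type} [Field k] [NumberField k] [Field L] [NumberField L] [Algebra k L]
  [IsGalois k L] {f : k[X]} (X : Ctx k L f) {a : k} (ha : eval a f = 0)

include ha in
theorem alpha_mem : algebraMap k L a ∈ X.Ω := by
  rw [X.mem_Ω, mem_rootSet]
  refine ⟨X.sepf.ne_zero, ?_⟩
  rw [aeval_algebraMap_apply, coe_aeval_eq_eval, ha, map_zero]

include ha in
theorem cmp_alpha (hm : 0 < X.m) {o : L} (ho : o ∈ X.Ω)
    (h : X.cmp hm o = X.cmp hm (algebraMap k L a)) : o = algebraMap k L a := by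
  classical
  have h1 : minpoly k o ∈ X.cls := Finset.mem_image_of_mem _ ho
  have h2 : minpoly k (algebraMap k L a) ∈ X.cls := Finset.mem_image_of_mem _ (X.alpha_mem ha)
  unfold Ctx.cmp at h
  rw [dif_pos h1, dif_pos h2] at h
  have h3 := congrArg Subtype.val (X.cls.equivFin.injective h)
  dsimp only at h3
  have h4 := minpoly.aeval k o
  rw [h3, minpoly.eq_X_sub_C L a, aeval_sub, aeval_X, aeval_C, sub_eq_zero] at h4
  exact h4

theorem iter_alpha (v : Pr k) (i : ℕ) (a : k) : (X.F v)^[i] (algebraMap k L a) = algebraMap k L a := by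
  induction i with
  | zero => rfl
  | succ i ih => rw [Function.iterate_succ_apply', ih, AlgEquiv.commutes]

include ha in
theorem alpha_mem_R (v : Pr k) : algebraMap k L a ∈ X.R v := by
  classical
  obtain ⟨i, hi⟩ := X.rep_eq v (algebraMap k L a)
  rw [X.iter_alpha] at hi
  exact Finset.mem_image.2 ⟨_, X.alpha_mem ha, hi⟩

theorem len_alpha (v : Pr k) (a : k) : X.len v (algebraMap k L a) = 1 := by
  unfold Ctx.len
  rw [Function.minimalPeriod_eq_one_iff_isFixedPt]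
  exact (X.F v).commutes a

/-- the Thue numbers of the root `a` -/
noncomputable def bt (a : k) (q : Pr k) : k := eval a (X.B q (algebraMap k L a))

theorem aeval_bt (a : k) (q : Pr k) :
    aeval (algebraMap k L a) (X.B q (algebraMap k L a)) = algebraMap k L (X.bt a q) := by
  rw [aeval_algebraMap_apply, coe_aeval_eq_eval]
  rfl

include ha in
theorem thue_alpha {q : Pr k} {p : ℕ} (hp : p.Prime) (hpM : ¬ p ∣ X.M) (hpq : (p : 𝓞 k) ∈ q.asIdeal) :
    IsThue f X.M X.K p q (X.P q) (algebraMap k L a) (X.B q (algebraMap k L a)) :=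
  X.thue p q (X.isOver hp hpM hpq) _ ((X.mem_Ω _).1 (X.alpha_mem ha)) ((X.F q).commutes a)

include ha in
theorem bt_ne {q : Pr k} (hq : Gd X.M q) : X.bt a q ≠ 0 := by
  obtain ⟨p, hp, hpM, hpq⟩ := hq
  have h1 := (X.thue_alpha ha hp hpM hpq).ne _ ((X.mem_Ω _).1 (X.alpha_mem ha)) rfl
  rw [X.aeval_bt] at h1
  exact (_root_.map_ne_zero _).1 h1

include ha in
theorem bt_unit {q v : Pr k} (hq : Gd X.M q) (hv : Gd X.M v) (hne : v ≠ q) :
    v.valuation k (X.bt a q) = 1 := by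
  obtain ⟨p, hp, hpM, hpq⟩ := hq
  obtain ⟨p', hp', hpM', hpv⟩ := hv
  have h1 := (X.thue_alpha ha hp hpM hpq).unit p' v (X.P v) (X.isOver hp' hpM' hpv) hne _
    ((X.mem_Ω _).1 (X.alpha_mem ha)) rfl
  rw [X.aeval_bt] at h1
  exact (val_eq_over (X.comap v)).1 h1

include ha in
theorem bt_above {q : Pr k} {p : ℕ} (hp : p.Prime) (hpM : ¬ p ∣ X.M) (hpq : (p : 𝓞 k) ∈ q.asIdeal) :
    q.valuation k (X.bt a q) = q.valuation k (p : k) := by
  have hα := (X.mem_Ω _).1 (X.alpha_mem ha)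
  have h1 : q.valuation k a ≤ 1 :=
    (val_le_over (X.comap q)).1 (X.int p q (X.P q) (X.isOver hp hpM hpq) _ hα)
  obtain ⟨a', ha'⟩ := exists_int_sub q h1
  have h2 : (X.P q).valuation L (algebraMap k L (a' : k) - algebraMap k L a) < 1 := by
    rw [← map_sub]
    exact (val_lt_over (X.comap q)).2 ha'
  have h3 := ((X.thue_alpha ha hp hpM hpq).above a' h2 (X.P q) (X.isOver hp hpM hpq) _ hα rfl).2 h2
  rw [X.aeval_bt] at h3
  have hp0 : (p : k) ≠ 0 := by exact_mod_cast hp.ne_zero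
  have hp0' : (p : L) ≠ 0 := by exact_mod_cast hp.ne_zero
  have h4 : (X.P q).valuation L (algebraMap k L (X.bt a q / p)) = 1 := by
    rw [map_div₀, map_natCast, map_div₀, h3, div_self (val_ne_zero _ hp0')]
  have h5 := (val_eq_over (X.comap q)).1 h4
  rw [map_div₀] at h5
  exact (div_eq_one_iff_eq (val_ne_zero q hp0)).1 h5

end Ctx

end Pool.Agent.HG
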