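import Pool.Agent.Helper88.HG2.BTRa

/-!
# Project HG2, block BTR, part 2: even valuations and Euler's criterion
-/

set_option autoImplicit false

namespace Pool.Agent.HG

open Polynomial NumberField IsDedekindDomain Pool.Agent.Helper88.HG
open scoped Pointwise IntermediateField

namespace Ctx

variable {k L : Type} [Field k] [NumberField k] [Field L] [NumberField L] [Algebra k L]
  [IsGalois k L] {f : k[X]} (X : Ctx k L f) {a : k} (ha : eval a f = 0)

include ha in
theorem ev_z {e : Finset (Pr k)} {x : 𝓞 k} {I : Ideal (𝓞 k)}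
    (h : Ideal.span {x} = Jp e * I) (he : ∀ q ∈ e, Gd X.M q) {p : ℕ} {v : Pr k} (hp : p.Prime)
    (hpM : ¬ p ∣ X.M) (hpd : ¬ p ∣ (discr k).natAbs) (hpv : (p : 𝓞 k) ∈ v.asIdeal)
    (hvI : ¬ v.asIdeal ∣ I) : Ev v p ((∏ q ∈ e, X.bt a q) * (x : k)) := by
  classical
  have hcast : (((p : 𝓞 k)) : k) = (p : k) := map_natCast (algebraMap (𝓞 k) k) p
  by_cases hv : v ∈ e
  · refine ⟨-1, ?_⟩
    have h1 : v.valuation k (x : k) = v.valuation k (p : k) := by
      have := val_eq_of_not_mem_sq ((mem_iff_of_not_dvd h hvI).2 hv) (not_sq_of_not_dvd h hvI) hpv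
        (not_mem_sq hp hpv hpd)
      rwa [hcast] at this
    have h2 : v.valuation k (∏ q ∈ e, X.bt a q) = v.valuation k (p : k) := by
      rw [← Finset.mul_prod_erase e _ hv, map_mul, X.bt_above ha hp hpM hpv, map_prod,
        Finset.prod_eq_one, mul_one]
      intro q hq
      exact X.bt_unit ha (he q (Finset.mem_of_mem_erase hq)) ⟨p, hp, hpM, hpv⟩
        (Finset.ne_of_mem_erase hq).symm
    have h0 : v.valuation k (p : k) ≠ 0 := val_p_ne hp
    rw [map_mul, map_mul, h1, h2, map_zpow₀, mul_neg_one, zpow_neg]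
    norm_cast
    rw [← sq]
    exact mul_inv_cancel₀ (pow_ne_zero 2 h0)
  · refine ⟨0, ?_⟩
    have h1 : v.valuation k (x : k) = 1 := by
      rw [val_int_one, mem_iff_of_not_dvd h hvI]
      exact hv
    have h2 : v.valuation k (∏ q ∈ e, X.bt a q) = 1 := by
      rw [map_prod, Finset.prod_eq_one]
      intro q hq
      exact X.bt_unit ha (he q hq) ⟨p, hp, hpM, hpv⟩ fun h' => hv (h' ▸ hq)
    rw [mul_zero, zpow_zero, mul_one, map_mul, h1, h2, one_mul]

/-- units of `k` -/
theorem un_k (v : Pr k) {y : k} (hy : v.valuation k y = 1) :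
    Un (X.P v) (nm v) (algebraMap k L y) := by
  have h1 := X.un_of_fixed (v := v) (n := 1) (z := algebraMap k L y)
    ((val_eq_over (X.comap v)).2 hy) (by rw [pow_one]; exact (X.F v).commutes y)
  rwa [pow_one] at h1

theorem two_unit' {v : Pr k} (hv : Gd X.M v) : (X.P v).valuation L (2 : L) = 1 := by
  obtain ⟨p, hp, hpM, hpv⟩ := hv
  exact X.two_unit hp hpM hpv

include ha in
theorem eul_x {e : Finset (Pr k)} {x : 𝓞 k} {I : Ideal (𝓞 k)}
    (h : Ideal.span {x} = Jp e * I) (he : ∀ q ∈ e, Gd X.M q) {v : Pr k} (hv : Gd X.M v)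
    (hve : v ∉ e) (hvI : ¬ v.asIdeal ∣ I) {κ d : k} (hκ : v.valuation k κ = 1)
    (hz : (∏ q ∈ e, X.bt a q) * (x : k) = κ * d ^ 2) :
    eul (X.P v) (nm v) (algebraMap k L (x : k)) = eul (X.P v) (nm v) (algebraMap k L κ) *
      ∏ q ∈ e, eul (X.P v) (nm v) (algebraMap k L (X.bt a q)) := by
  classical
  have h2 := X.two_unit' hv
  have hq := X.odd_nm hv
  have hx : v.valuation k (x : k) = 1 := by
    rw [val_int_one, mem_iff_of_not_dvd h hvI]
    exact hve
  have hb : ∀ q ∈ e, v.valuation k (X.bt a q) = 1 := fun q hq =>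
    X.bt_unit ha (he q hq) hv fun h' => hve (h' ▸ hq)
  have hB : v.valuation k (∏ q ∈ e, X.bt a q) = 1 := by
    rw [map_prod, Finset.prod_eq_one hb]
  have hd : v.valuation k d = 1 := by
    have h3 := congrArg (v.valuation k) hz
    rw [map_mul, map_mul, hB, hx, hκ, one_mul, one_mul, map_pow] at h3
    exact (pow_eq_one_iff_of_nonneg zero_le two_ne_zero).1 h3.symm
  have h3 : eul (X.P v) (nm v) (algebraMap k L ((∏ q ∈ e, X.bt a q) * (x : k))) =
      (∏ q ∈ e, eul (X.P v) (nm v) (algebraMap k L (X.bt a q))) *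
        eul (X.P v) (nm v) (algebraMap k L (x : k)) := by
    rw [map_mul, eul_mul h2 hq (X.un_k v hB) (X.un_k v hx), map_prod,
      eul_prod h2 hq _ _ fun q hq => X.un_k v (hb q hq)]
  have h4 : eul (X.P v) (nm v) (algebraMap k L (κ * d ^ 2)) =
      eul (X.P v) (nm v) (algebraMap k L κ) := by
    rw [map_mul, map_pow, eul_mul h2 hq (X.un_k v hκ) (by
      rw [← map_pow]; exact X.un_k v (by rw [map_pow, hd, one_pow])),
      eul_sq h2 hq (X.un_k v hd), mul_one]
  rw [← hz, h3] at h4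
  rw [← h4, mul_comm (_ * _) (∏ q ∈ e, _), ← mul_assoc, Int.units_mul_self, one_mul]

theorem isSquare_iff_eul {v : Pr k} (hv : Gd X.M v) (x : 𝓞 k) (hx : x ∉ v.asIdeal) :
    IsSquare (Ideal.Quotient.mk v.asIdeal x) ↔
      eul (X.P v) (nm v) (algebraMap k L (x : k)) = 1 := by
  classical
  have hpull : pull (algebraMap k L) (X.P v) = v := by
    apply HeightOneSpectrum.ext
    rw [← X.comap v]
    rfl
  have h1 := sq_iff (P := X.P v) (algebraMap k L) (by rw [hpull]; exact X.odd_nm hv) x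
    (by rw [hpull]; exact hx)
  rw [hpull] at h1
  rw [h1]
  unfold eul
  split_ifs with h
  · exact ⟨fun _ => rfl, fun _ => h⟩
  · exact ⟨fun h' => absurd h' h, fun h' => absurd h' (by decide)⟩

end Ctx

end Pool.Agent.HG
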